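import Pool.Agent.P.MP_14681b_lc.Strs

set_option autoImplicit false

namespace Pool.Agent.P.MP_14681b_lc

open Classical

def lev (s : ℕ) : ℕ := s.unpair.1

def wt (s : ℕ) (σ : List Bool) : ℕ :=
  (Denumerable.ofNat (List ℕ) s.unpair.2).getD (Encodable.encode σ) 0

def sA (u : ℕ × List Bool × ℕ → Bool) (d s n t : ℕ) : ℕ :=
  ((allStr n).map (fun σ => bif u (d, σ, t) then 2 ^ lev s - wt s (σ.take (lev s)) else 0)).sum

def sB (s : ℕ) : ℕ := ((allStr (lev s)).map (wt s)).sum

def InvN (u : ℕ × List Bool × ℕ → Bool) (d s n t : ℕ) : Prop :=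
  4 * 2 ^ lev s * 2 ^ d * sA u d s n t + 2 ^ n * 2 ^ d * sB s + 4 * 2 ^ n * 2 ^ lev s
    ≤ 8 * 2 ^ n * 2 ^ lev s * 2 ^ lev s

def High (s : ℕ) (σ : List Bool) : Prop := 2 ^ lev s ≤ 3 * wt s (σ.take (lev s))

def Good (u : ℕ × List Bool × ℕ → Bool) (d t s s' : ℕ) : Prop :=
  lev s < lev s' ∧
  (∀ σ ∈ allStr (lev s'), High s σ → High s' σ) ∧
  (∀ n ∈ List.range (t + 1), lev s' ≤ n → InvN u d s' n t) ∧
  (∀ x ∈ allStr (lev s'), ∀ y ∈ allStr (lev s'), ¬ High s' x → ¬ High s' y →
    ∃ n ∈ List.range (lev s' + 1), lev s ≤ n ∧ u (d, x.take n, t) = false ∧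
      u (d, y.take n, t) = false)

noncomputable def ap (u : ℕ × List Bool × ℕ → Bool) (d t : ℕ) : ℕ → ℕ
  | 0 => 0
  | j + 1 => (List.range (t + 1)).findIdx (fun s' => decide (Good u d t (ap u d t j) s'))

def New (s s' : ℕ) (σ : List Bool) : Prop := σ.length = lev s' ∧ High s' σ ∧ ¬ High s σ

noncomputable def testR (u : ℕ × List Bool × ℕ → Bool) (p : ℕ × List Bool × ℕ × ℕ) : Bool :=
  decide (New
    (ap u (p.1 + 6 + p.2.2.1.unpair.1) (p.2.2.1.unpair.2.unpair.2 + p.2.2.2)
      p.2.2.1.unpair.2.unpair.1)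
    (ap u (p.1 + 6 + p.2.2.1.unpair.1) (p.2.2.1.unpair.2.unpair.2 + p.2.2.2)
      (p.2.2.1.unpair.2.unpair.1 + 1)) p.2.1)

section prim

variable {γ β : Type} [Primcodable γ] [Primcodable β]

theorem pr_forall_mem {L : γ → List β} {p : γ → β → Prop} (hL : Primrec L)
    (hp : PrimrecPred fun z : γ × β => p z.1 z.2) : PrimrecPred fun a => ∀ b ∈ L a, p a b := by
  have h : PrimrecRel (fun (b : β) (a : γ) => p a b) :=
    hp.comp (Primrec.pair Primrec.snd Primrec.fst)
  exact h.forall_mem_list.comp hL Primrec.id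

theorem pr_exists_mem {L : γ → List β} {p : γ → β → Prop} (hL : Primrec L)
    (hp : PrimrecPred fun z : γ × β => p z.1 z.2) : PrimrecPred fun a => ∃ b ∈ L a, p a b := by
  have h : PrimrecRel (fun (b : β) (a : γ) => p a b) :=
    hp.comp (Primrec.pair Primrec.snd Primrec.fst)
  exact h.exists_mem_list.comp hL Primrec.id

theorem pr_imp {p q : γ → Prop} (hp : PrimrecPred p) (hq : PrimrecPred q) :
    PrimrecPred fun a => p a → q a :=
  (hp.not.or hq).of_eq (fun a => by tauto)

theorem pr_pow2 : Primrec (fun n : ℕ => 2 ^ n) := by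
  have : Primrec₂ (fun a b : ℕ => a ^ b) := Primrec₂.unpaired'.1 Nat.Primrec.pow
  exact this.comp (Primrec.const 2) Primrec.id

theorem pr_sum : Primrec (fun L : List ℕ => L.sum) := by
  have := Primrec.list_foldr (f := fun L : List ℕ => L) (g := fun _ => 0)
    (h := fun _ p => p.1 + p.2) Primrec.id (Primrec.const 0)
    (Primrec.nat_add.comp (Primrec.fst.comp Primrec.snd) (Primrec.snd.comp Primrec.snd)).to₂
  refine this.of_eq (fun L => ?_)
  induction L with
  | nil => rfl
  | cons a L ih => simp [ih]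

theorem pr_allStr : Primrec allStr := by
  have h : Primrec₂ (fun (_ : ℕ) (L : List (List Bool)) =>
      L.flatMap (fun s => [s ++ [false], s ++ [true]])) := by
    have h1 : Primrec (fun z : (ℕ × List (List Bool)) × List Bool =>
        [z.2 ++ [false], z.2 ++ [true]]) :=
      Primrec.list_cons.comp (Primrec.list_append.comp Primrec.snd (Primrec.const [false]))
        (Primrec.list_cons.comp (Primrec.list_append.comp Primrec.snd (Primrec.const [true]))
          (Primrec.const []))
    exact (Primrec.list_flatMap (f := fun z : ℕ × List (List Bool) => z.2)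
      (g := fun _ s => [s ++ [false], s ++ [true]]) Primrec.snd h1.to₂).to₂
  refine (Primrec.nat_rec₁ [[]] h).of_eq (fun n => ?_)
  induction n with
  | zero => rfl
  | succ n ih => simp only [allStr, ← ih]

theorem pr_lev : Primrec lev := Primrec.fst.comp Primrec.unpair

theorem pr_wt : Primrec₂ wt :=
  ((Primrec.list_getD 0).comp
    ((Primrec.ofNat (List ℕ)).comp (Primrec.snd.comp (Primrec.unpair.comp Primrec.fst)))
    (Primrec.encode.comp Primrec.snd)).to₂

theorem pr_wtt {s : γ → ℕ} {σ : γ → List Bool} (hs : Primrec s) (hσ : Primrec σ) :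
    Primrec fun a => wt (s a) ((σ a).take (lev (s a))) :=
  pr_wt.comp hs (Primrec.list_take.comp (pr_lev.comp hs) hσ)

theorem pr_High {s : γ → ℕ} {σ : γ → List Bool} (hs : Primrec s) (hσ : Primrec σ) :
    PrimrecPred fun a => High (s a) (σ a) :=
  Primrec.nat_le.comp (pr_pow2.comp (pr_lev.comp hs))
    (Primrec.nat_mul.comp (Primrec.const 3) (pr_wtt hs hσ))

theorem pr_sB : Primrec sB :=
  pr_sum.comp (Primrec.list_map (pr_allStr.comp pr_lev) pr_wt)

variable {u : ℕ × List Bool × ℕ → Bool}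

theorem pr_sA (hu : Primrec u) {d s n t : γ → ℕ} (hd : Primrec d) (hs : Primrec s)
    (hn : Primrec n) (ht : Primrec t) : Primrec fun a => sA u (d a) (s a) (n a) (t a) := by
  refine pr_sum.comp (Primrec.list_map (pr_allStr.comp hn) ?_)
  have h1 : Primrec (fun z : γ × List Bool => bif u (d z.1, z.2, t z.1) then
      2 ^ lev (s z.1) - wt (s z.1) (z.2.take (lev (s z.1))) else 0) :=
    Primrec.cond (hu.comp ((hd.comp Primrec.fst).pair
      (Primrec.snd.pair (ht.comp Primrec.fst))))
      (Primrec.nat_sub.comp (pr_pow2.comp (pr_lev.comp (hs.comp Primrec.fst)))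
        (pr_wtt (hs.comp Primrec.fst) Primrec.snd)) (Primrec.const 0)
  exact h1.to₂

theorem pr_InvN (hu : Primrec u) {d s n t : γ → ℕ} (hd : Primrec d) (hs : Primrec s)
    (hn : Primrec n) (ht : Primrec t) : PrimrecPred fun a => InvN u (d a) (s a) (n a) (t a) := by
  have hl := pr_pow2.comp (pr_lev.comp hs)
  have hd2 := pr_pow2.comp hd
  have hn2 := pr_pow2.comp hn
  exact Primrec.nat_le.comp
    (Primrec.nat_add.comp (Primrec.nat_add.comp
      (Primrec.nat_mul.comp (Primrec.nat_mul.comp (Primrec.nat_mul.comp (Primrec.const 4) hl) hd2)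
        (pr_sA hu hd hs hn ht))
      (Primrec.nat_mul.comp (Primrec.nat_mul.comp hn2 hd2) (pr_sB.comp hs)))
      (Primrec.nat_mul.comp (Primrec.nat_mul.comp (Primrec.const 4) hn2) hl))
    (Primrec.nat_mul.comp (Primrec.nat_mul.comp (Primrec.nat_mul.comp (Primrec.const 8) hn2) hl) hl)

theorem pr_cover (hu : Primrec u) {d t s s' : γ → ℕ} {x y : γ → List Bool} (hd : Primrec d)
    (ht : Primrec t) (hs : Primrec s) (hs' : Primrec s') (hx : Primrec x) (hy : Primrec y) :
    PrimrecPred fun a => ∃ n ∈ List.range (lev (s' a) + 1), lev (s a) ≤ n ∧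
      u (d a, (x a).take n, t a) = false ∧ u (d a, (y a).take n, t a) = false := by
  refine pr_exists_mem (Primrec.list_range.comp (Primrec.succ.comp (pr_lev.comp hs'))) ?_
  refine (Primrec.nat_le.comp (pr_lev.comp (hs.comp Primrec.fst)) Primrec.snd).and
    (PrimrecPred.and ?_ ?_)
  · exact Primrec.eq.comp (hu.comp ((hd.comp Primrec.fst).pair
      ((Primrec.list_take.comp Primrec.snd (hx.comp Primrec.fst)).pair (ht.comp Primrec.fst))))
      (Primrec.const false)
  · exact Primrec.eq.comp (hu.comp ((hd.comp Primrec.fst).pair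
      ((Primrec.list_take.comp Primrec.snd (hy.comp Primrec.fst)).pair (ht.comp Primrec.fst))))
      (Primrec.const false)

theorem pr_Good (hu : Primrec u) {d t s s' : γ → ℕ} (hd : Primrec d)
    (ht : Primrec t) (hs : Primrec s) (hs' : Primrec s') :
    PrimrecPred fun a => Good u (d a) (t a) (s a) (s' a) := by
  refine (Primrec.nat_lt.comp (pr_lev.comp hs) (pr_lev.comp hs')).and
    (PrimrecPred.and ?_ (PrimrecPred.and ?_ ?_))
  · exact pr_forall_mem (pr_allStr.comp (pr_lev.comp hs'))
      (pr_imp (pr_High (hs.comp Primrec.fst) Primrec.snd)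
        (pr_High (hs'.comp Primrec.fst) Primrec.snd))
  · exact pr_forall_mem (Primrec.list_range.comp (Primrec.succ.comp ht))
      (pr_imp (Primrec.nat_le.comp (pr_lev.comp (hs'.comp Primrec.fst)) Primrec.snd)
        (pr_InvN hu (hd.comp Primrec.fst) (hs'.comp Primrec.fst) Primrec.snd
          (ht.comp Primrec.fst)))
  · refine pr_forall_mem (pr_allStr.comp (pr_lev.comp hs')) ?_
    refine pr_forall_mem (γ := γ × List Bool)
      (p := fun z y => ¬ High (s' z.1) z.2 → ¬ High (s' z.1) y →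
        ∃ n ∈ List.range (lev (s' z.1) + 1), lev (s z.1) ≤ n ∧
          u (d z.1, z.2.take n, t z.1) = false ∧ u (d z.1, y.take n, t z.1) = false)
      (pr_allStr.comp (pr_lev.comp (hs'.comp Primrec.fst))) ?_
    have f1 : Primrec (fun z : (γ × List Bool) × List Bool => z.1.1) :=
      Primrec.fst.comp Primrec.fst
    have f2 : Primrec (fun z : (γ × List Bool) × List Bool => z.1.2) :=
      Primrec.snd.comp Primrec.fst
    exact pr_imp (pr_High (hs'.comp f1) f2).not
      (pr_imp (pr_High (hs'.comp f1) Primrec.snd).not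
        (pr_cover hu (hd.comp f1) (ht.comp f1) (hs.comp f1) (hs'.comp f1) f2 Primrec.snd))

theorem pr_ap (hu : Primrec u) {d t j : γ → ℕ} (hd : Primrec d)
    (ht : Primrec t) (hj : Primrec j) : Primrec fun a => ap u (d a) (t a) (j a) := by
  have h : Primrec₂ (fun (a : γ) (p : ℕ × ℕ) =>
      (List.range (t a + 1)).findIdx (fun s' => decide (Good u (d a) (t a) p.2 s'))) := by
    refine (Primrec.list_findIdx (α := γ × ℕ × ℕ)
      (f := fun z => List.range (t z.1 + 1))
      (p := fun z s' => decide (Good u (d z.1) (t z.1) z.2.2 s'))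
      (Primrec.list_range.comp (Primrec.succ.comp (ht.comp Primrec.fst))) ?_).to₂
    have f1 : Primrec (fun z : (γ × ℕ × ℕ) × ℕ => z.1.1) := Primrec.fst.comp Primrec.fst
    have f2 : Primrec (fun z : (γ × ℕ × ℕ) × ℕ => z.1.2.2) :=
      Primrec.snd.comp (Primrec.snd.comp Primrec.fst)
    exact (pr_Good hu (hd.comp f1) (ht.comp f1) f2 Primrec.snd).decide.to₂
  refine (Primrec.nat_rec' hj (Primrec.const 0) h).of_eq (fun a => ?_)
  induction j a with
  | zero => rfl
  | succ k ih => simp only [ap, ← ih]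

theorem pr_New {s s' : γ → ℕ} {σ : γ → List Bool} (hs : Primrec s) (hs' : Primrec s')
    (hσ : Primrec σ) : PrimrecPred fun a => New (s a) (s' a) (σ a) :=
  (Primrec.eq.comp (Primrec.list_length.comp hσ) (pr_lev.comp hs')).and
    ((pr_High hs' hσ).and (pr_High hs hσ).not)

theorem pr_testR (hu : Primrec u) : Primrec (testR u) := by
  have ha : Primrec (fun p : ℕ × List Bool × ℕ × ℕ => p.2.2.1) :=
    Primrec.fst.comp (Primrec.snd.comp Primrec.snd)
  have hb : Primrec (fun p : ℕ × List Bool × ℕ × ℕ => p.2.2.2) :=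
    Primrec.snd.comp (Primrec.snd.comp Primrec.snd)
  have ha2 := Primrec.unpair.comp (Primrec.snd.comp (Primrec.unpair.comp ha))
  have hd := Primrec.nat_add.comp (Primrec.nat_add.comp Primrec.fst (Primrec.const 6))
    (Primrec.fst.comp (Primrec.unpair.comp ha))
  have ht := Primrec.nat_add.comp (Primrec.snd.comp ha2) hb
  have hj := Primrec.fst.comp ha2
  exact (pr_New (pr_ap hu hd ht hj) (pr_ap hu hd ht (Primrec.succ.comp hj))
    (Primrec.fst.comp Primrec.snd)).decide

end prim

end Pool.Agent.P.MP_14681b_lc
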