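import Pool.Agent.P.MP_14681b_lc.Strs

set_option autoImplicit false

namespace Pool.Agent.P.MP_14681b_lc

open Classical

/-- indicator of U -/
noncomputable def ind (U : List Bool → Prop) (σ : List Bool) : ℝ := if U σ then 1 else 0

theorem ind_nonneg (U : List Bool → Prop) (σ : List Bool) : 0 ≤ ind U σ := by
  unfold ind; split_ifs <;> norm_num

theorem ind_le_one (U : List Bool → Prop) (σ : List Bool) : ind U σ ≤ 1 := by
  unfold ind; split_ifs <;> norm_num

noncomputable def phi (t : ℝ) : ℝ := (2 / 3) * (max (t - 1 / 4) 0) ^ 2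
noncomputable def dphi (t : ℝ) : ℝ := (4 / 3) * max (t - 1 / 4) 0

theorem phi_nonneg (t : ℝ) : 0 ≤ phi t := by unfold phi; positivity

theorem dphi_nonneg (t : ℝ) : 0 ≤ dphi t := by
  unfold dphi; have := le_max_right (t - 1 / 4) 0; positivity

theorem dphi_le_one {t : ℝ} (h : t ≤ 1) : dphi t ≤ 1 := by
  unfold dphi
  rcases le_total (t - 1 / 4) 0 with h1 | h1
  · rw [max_eq_right h1]; norm_num
  · rw [max_eq_left h1]; linarith

theorem lt_half_of_dphi {t : ℝ} (h : dphi t < 1 / 3) : t < 1 / 2 := by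
  unfold dphi at h
  have := le_max_left (t - 1 / 4) 0
  linarith

theorem dphi_mul (t : ℝ) : dphi t / 4 ≤ dphi t * t := by
  unfold dphi
  rcases le_total (t - 1 / 4) 0 with h1 | h1
  · rw [max_eq_right h1]; norm_num
  · rw [max_eq_left h1]; nlinarith

theorem phi_add (u h : ℝ) : phi (u + h) ≤ phi u + dphi u * h + (2 / 3) * h ^ 2 := by
  unfold phi dphi
  rcases le_total (u - 1 / 4) 0 with h1 | h1 <;> rcases le_total (u + h - 1 / 4) 0 with h2 | h2
  · rw [max_eq_right h1, max_eq_right h2]; nlinarith [sq_nonneg h]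
  · rw [max_eq_right h1, max_eq_left h2]; nlinarith
  · rw [max_eq_left h1, max_eq_right h2]; nlinarith [sq_nonneg (u - 1 / 4 + h)]
  · rw [max_eq_left h1, max_eq_left h2]; nlinarith

/-- admissible fractional covers above level l -/
def Adm (U : List Bool → Prop) (l m : ℕ) (g : List Bool → ℝ) : Prop :=
  l ≤ m ∧ (∀ σ, 0 ≤ g σ ∧ g σ ≤ 1) ∧
    ∀ x y : List Bool, x.length = m → y.length = m → g x + g y < 1 →
      ∃ n, l ≤ n ∧ n ≤ m ∧ ¬ U (x.take n) ∧ ¬ U (y.take n)

theorem adm_ind (U : List Bool → Prop) (l : ℕ) : Adm U l l (ind U) := by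
  refine ⟨le_rfl, fun σ => ⟨ind_nonneg U σ, ind_le_one U σ⟩, fun x y hx hy h => ⟨l, le_rfl, le_rfl, ?_, ?_⟩⟩
  · rw [← hx, List.take_length]
    intro hU
    have := ind_nonneg U y
    simp only [ind, hU, if_true] at h this ⊢
    linarith
  · rw [← hy, List.take_length]
    intro hU
    have := ind_nonneg U x
    simp only [ind, hU, if_true] at h this ⊢
    linarith

theorem adm_mix {U : List Bool → Prop} {l m n : ℕ} {g : List Bool → ℝ} (hg : Adm U l m g)
    (hn : m ≤ n) {t : ℝ} (h0 : 0 ≤ t) (h1 : t ≤ 1) :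
    Adm U l n (fun σ => g (σ.take m) + t * (ind U σ - g (σ.take m))) := by
  obtain ⟨hlm, hb, hc⟩ := hg
  refine ⟨hlm.trans hn, fun σ => ?_, fun x y hx hy h => ?_⟩
  · have := hb (σ.take m)
    have := ind_nonneg U σ
    have := ind_le_one U σ
    constructor <;> nlinarith
  · by_cases hgg : g (x.take m) + g (y.take m) < 1
    · obtain ⟨k, hk1, hk2, hk3, hk4⟩ := hc (x.take m) (y.take m) (by simp [hx, hn])
        (by simp [hy, hn]) hgg
      refine ⟨k, hk1, hk2.trans hn, ?_, ?_⟩
      · rwa [List.take_take, min_eq_left hk2] at hk3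
      · rwa [List.take_take, min_eq_left hk2] at hk4
    · have hlt : ind U x + ind U y < 1 := by
        by_contra hcon
        push Not at hcon hgg
        nlinarith
      refine ⟨n, hlm.trans hn, le_rfl, ?_, ?_⟩
      · rw [← hx, List.take_length]
        intro hU
        have := ind_nonneg U y
        simp only [ind, hU, if_true] at hlt this ⊢
        linarith
      · rw [← hy, List.take_length]
        intro hU
        have := ind_nonneg U x
        simp only [ind, hU, if_true] at hlt this ⊢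
        linarith

/-- near minimiser with the first order condition -/
theorem exists_near_min (U : List Bool → Prop) (l : ℕ) (w : List Bool → ℝ)
    (hw : ∀ σ, 0 ≤ w σ ∧ w σ ≤ 1) {δ : ℝ} (hδ : 0 < δ) :
    ∃ m g, Adm U l m g ∧ ∀ n, m ≤ n →
      Ex m (fun σ => w (σ.take l) * dphi (g σ)) / 4 - δ ≤
        Ex n (fun σ => w (σ.take l) * dphi (g (σ.take m)) * ind U σ) := by
  set J : ℕ → (List Bool → ℝ) → ℝ := fun m g => Ex m (fun σ => w (σ.take l) * phi (g σ)) with hJ
  set T : Set ℝ := {r | ∃ m g, Adm U l m g ∧ r = J m g} with hT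
  have hne : T.Nonempty := ⟨_, l, ind U, adm_ind U l, rfl⟩
  have hbd : BddBelow T := by
    refine ⟨0, ?_⟩
    rintro r ⟨m, g, -, rfl⟩
    exact Ex_nonneg (fun σ _ => mul_nonneg (hw _).1 (phi_nonneg _))
  set t : ℝ := min 1 (δ / 2) with ht
  have ht0 : 0 < t := lt_min one_pos (by linarith)
  have ht1 : t ≤ 1 := min_le_left _ _
  have ht2 : t ≤ δ / 2 := min_le_right _ _
  obtain ⟨r, ⟨m, g, hg, rfl⟩, hr⟩ := Real.lt_sInf_add_pos hne (show 0 < t * δ / 2 by positivity)
  refine ⟨m, g, hg, fun n hn => ?_⟩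
  have hmix := adm_mix hg hn ht0.le ht1
  have hle : sInf T ≤ J n (fun σ => g (σ.take m) + t * (ind U σ - g (σ.take m))) :=
    csInf_le hbd ⟨n, _, hmix, rfl⟩
  have hlm : l ≤ m := hg.1
  have e1 : Ex n (fun σ => w (σ.take l) * phi (g (σ.take m))) = J m g := by
    rw [hJ]
    dsimp only
    rw [← Ex_take hn]
    refine Ex_congr (fun σ _ => ?_)
    rw [List.take_take, min_eq_left hlm]
  have e2 : Ex n (fun σ => w (σ.take l) * dphi (g (σ.take m)))
      = Ex m (fun σ => w (σ.take l) * dphi (g σ)) := by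
    rw [← Ex_take hn]
    refine Ex_congr (fun σ _ => ?_)
    rw [List.take_take, min_eq_left hlm]
  have hup : J n (fun σ => g (σ.take m) + t * (ind U σ - g (σ.take m))) ≤
      Ex n (fun σ => w (σ.take l) * phi (g (σ.take m)) +
        t * (w (σ.take l) * dphi (g (σ.take m)) * ind U σ -
          (1 / 4) * (w (σ.take l) * dphi (g (σ.take m)))) + (2 / 3) * t ^ 2) := by
    rw [hJ]
    refine Ex_mono (fun σ _ => ?_)
    have h1 := phi_add (g (σ.take m)) (t * (ind U σ - g (σ.take m)))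
    have h2 := hw (σ.take l)
    have h3 := hg.2.1 (σ.take m)
    have h4 := ind_nonneg U σ
    have h5 := ind_le_one U σ
    have h6 := dphi_mul (g (σ.take m))
    have h7 : (ind U σ - g (σ.take m)) ^ 2 ≤ 1 := by nlinarith
    have h8 : (t * (ind U σ - g (σ.take m))) ^ 2 ≤ t ^ 2 := by
      rw [mul_pow]; nlinarith [sq_nonneg t]
    have h9 : w (σ.take l) * ((2 / 3) * (t * (ind U σ - g (σ.take m))) ^ 2) ≤ (2 / 3) * t ^ 2 := by
      nlinarith [sq_nonneg (t * (ind U σ - g (σ.take m)))]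
    have h10 := mul_le_mul_of_nonneg_left h1 h2.1
    have h11 : t * (w (σ.take l) * (dphi (g (σ.take m)) / 4)) ≤
        t * (w (σ.take l) * (dphi (g (σ.take m)) * g (σ.take m))) :=
      mul_le_mul_of_nonneg_left (mul_le_mul_of_nonneg_left h6 h2.1) ht0.le
    nlinarith
  rw [Ex_add, Ex_add, Ex_mul, Ex_sub, Ex_mul, Ex_const, e1, e2] at hup
  set A := Ex n (fun σ => w (σ.take l) * dphi (g (σ.take m)) * ind U σ)
  set B := Ex m (fun σ => w (σ.take l) * dphi (g σ))
  have key : t * (B / 4 - δ) ≤ t * A := by nlinarith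
  exact le_of_mul_le_mul_left key ht0

/-- one step of the construction, real valued form -/
theorem exists_step (U : List Bool → Prop) (l : ℕ) (α : List Bool → ℝ)
    (hα : ∀ σ, 0 ≤ α σ ∧ α σ ≤ 1) {e δ : ℝ} (hδ : 0 < δ)
    (H : ∀ n, l ≤ n → Ex n (fun σ => ind U σ * (1 - α (σ.take l))) + Ex l α / 4 ≤ e) :
    ∃ (m : ℕ) (β : List Bool → ℝ), l ≤ m ∧ (∀ σ, α (σ.take l) ≤ β σ ∧ β σ ≤ 1) ∧
      (∀ n, m ≤ n → Ex n (fun σ => ind U σ * (1 - β (σ.take m))) + Ex m β / 4 ≤ e + δ) ∧
      ∀ x y : List Bool, x.length = m → y.length = m → β x < 1 / 3 → β y < 1 / 3 →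
        ∃ n, l ≤ n ∧ n ≤ m ∧ ¬ U (x.take n) ∧ ¬ U (y.take n) := by
  obtain ⟨m, g, hg, hfo⟩ := exists_near_min U l (fun σ => 1 - α σ)
    (fun σ => by have := hα σ; constructor <;> linarith) hδ
  have hlm : l ≤ m := hg.1
  refine ⟨m, fun σ => α (σ.take l) + (1 - α (σ.take l)) * dphi (g σ), hlm, fun σ => ?_,
    fun n hn => ?_, fun x y hx hy h1 h2 => ?_⟩
  · have h1 := hα (σ.take l)
    have h2 := dphi_nonneg (g σ)
    have h3 := dphi_le_one (hg.2.1 σ).2
    constructor <;> nlinarith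
  · have h1 := hfo n hn
    have h2 := H n (hlm.trans hn)
    have e1 : Ex n (fun σ => ind U σ * (1 - (α ((σ.take m).take l) +
        (1 - α ((σ.take m).take l)) * dphi (g (σ.take m))))) =
        Ex n (fun σ => ind U σ * (1 - α (σ.take l))) -
          Ex n (fun σ => (1 - α (σ.take l)) * dphi (g (σ.take m)) * ind U σ) := by
      rw [← Ex_sub]
      refine Ex_congr (fun σ _ => ?_)
      rw [List.take_take, min_eq_left hlm]
      ring
    rw [e1, Ex_add, Ex_take hlm]
    linarith
  · have k : ∀ z, α (z.take l) + (1 - α (z.take l)) * dphi (g z) < 1 / 3 → g z < 1 / 2 := by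
      intro z hz
      apply lt_half_of_dphi
      have h1 := hα (z.take l)
      have h2 := dphi_nonneg (g z)
      have h3 := dphi_le_one (hg.2.1 z).2
      nlinarith
    exact hg.2.2 x y hx hy (by linarith [k x h1, k y h2])

end Pool.Agent.P.MP_14681b_lc
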