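import Pool.Agent.P.MP_14681b_lc.Main

set_option autoImplicit false

namespace Pool.Agent.P.MP_14681b_lc

open Classical Filter Nat.Partrec

def dec (m : ℕ) : List Bool := (Encodable.decode (α := List Bool) m).getD []

noncomputable def uc (c : Code) (p : ℕ × List Bool × ℕ) : Bool :=
  decide (∃ m ∈ List.range p.2.2, (dec m).length + p.1 < p.2.1.length ∧
    Code.evaln p.2.2 c (Encodable.encode (dec m)) = some (Encodable.encode p.2.1))

theorem pr_dec : Primrec dec := Primrec.option_getD.comp Primrec.decode (Primrec.const [])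

theorem pr_uc (c : Code) : Primrec (uc c) := by
  have h : PrimrecPred (fun p : ℕ × List Bool × ℕ => ∃ m ∈ List.range p.2.2,
      (dec m).length + p.1 < p.2.1.length ∧
      Code.evaln p.2.2 c (Encodable.encode (dec m)) = some (Encodable.encode p.2.1)) := by
    refine pr_exists_mem (Primrec.list_range.comp (Primrec.snd.comp Primrec.snd)) ?_
    have f1 : Primrec (fun z : (ℕ × List Bool × ℕ) × ℕ => z.1.1) := Primrec.fst.comp Primrec.fst
    have f2 : Primrec (fun z : (ℕ × List Bool × ℕ) × ℕ => z.1.2.1) :=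
      Primrec.fst.comp (Primrec.snd.comp Primrec.fst)
    have f3 : Primrec (fun z : (ℕ × List Bool × ℕ) × ℕ => z.1.2.2) :=
      Primrec.snd.comp (Primrec.snd.comp Primrec.fst)
    have f4 : Primrec (fun z : (ℕ × List Bool × ℕ) × ℕ => dec z.2) := pr_dec.comp Primrec.snd
    refine (Primrec.nat_lt.comp (Primrec.nat_add.comp (Primrec.list_length.comp f4) f1)
      (Primrec.list_length.comp f2)).and ?_
    exact Primrec.eq.comp
      (Code.primrec_evaln.comp ((f3.pair (Primrec.const c)).pair (Primrec.encode.comp f4)))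
      (Primrec.option_some.comp (Primrec.encode.comp f2))
  exact h.decide

theorem mono_uc (c : Code) : Mono (uc c) := by
  intro d σ t t' htt h
  simp only [uc, decide_eq_true_eq, List.mem_range] at h ⊢
  obtain ⟨m, h1, h2, h3⟩ := h
  exact ⟨m, by omega, h2, Code.evaln_mono htt h3⟩

theorem un_uc {U : List Bool →. List Bool} {c : Code}
    (hc : Code.eval c = fun n => Part.bind (Encodable.decode (α := List Bool) n)
      fun a => (U a).map Encodable.encode) (d : ℕ) (σ : List Bool) :
    Un (uc c) d σ ↔ ∃ q, σ ∈ U q ∧ q.length + d < σ.length := by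
  have key : ∀ q : List Bool, Encodable.encode σ ∈ Code.eval c (Encodable.encode q) ↔ σ ∈ U q := by
    intro q
    rw [hc]
    simp
  constructor
  · rintro ⟨t, h⟩
    simp only [uc, decide_eq_true_eq, List.mem_range] at h
    obtain ⟨m, -, h2, h3⟩ := h
    exact ⟨dec m, (key _).1 (Code.evaln_sound h3), h2⟩
  · rintro ⟨q, h1, h2⟩
    obtain ⟨t, ht⟩ := Code.evaln_complete.1 ((key q).2 h1)
    refine ⟨t, ?_⟩
    simp only [uc, decide_eq_true_eq, List.mem_range]
    have e : dec (Encodable.encode q) = q := by simp [dec]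
    exact ⟨Encodable.encode q, Code.evaln_bound ht, by rw [e]; exact h2, by rw [e]; exact ht⟩

theorem count_small (U : List Bool →. List Bool) (P : List Bool → Prop) (d n : ℕ)
    (hP : ∀ σ, P σ → ∃ q, σ ∈ U q ∧ q.length + d < σ.length) : Ex n (ind P) ≤ 1 / 2 ^ d := by
  have h1 : ∑ σ ∈ strs n, ind P σ = (((strs n).filter P).card : ℝ) := by
    unfold ind
    rw [Finset.sum_boole]
  have h2 : ((strs n).filter P).card ≤ ((Finset.range (n - d)).biUnion strs).card := by
    refine Finset.card_le_card_of_injOn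
      (fun σ => if h : P σ then (hP σ h).choose else []) ?_ ?_
    · intro σ hσ
      simp only [Finset.coe_filter, Set.mem_ofPred_eq] at hσ
      have hs := (hP σ hσ.2).choose_spec
      simp only [hσ.2, dif_pos, Finset.coe_biUnion, Set.mem_iUnion, Finset.mem_coe]
      refine ⟨_, Finset.mem_range.2 ?_, mem_strs.2 rfl⟩
      have := mem_strs.1 hσ.1
      omega
    · intro σ hσ τ hτ h
      simp only [Finset.coe_filter, Set.mem_ofPred_eq] at hσ hτ
      simp only [hσ.2, hτ.2, dif_pos] at h
      have h1 := (hP σ hσ.2).choose_spec.1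
      have h2 := (hP τ hτ.2).choose_spec.1
      rw [h] at h1
      exact Part.mem_unique h1 h2
  have h3 : ((Finset.range (n - d)).biUnion strs).card ≤ 2 ^ (n - d) - 1 := by
    refine Finset.card_biUnion_le.trans ?_
    simp only [card_strs]
    rw [Nat.geomSum_eq (by norm_num)]
    simp
  unfold Ex
  rw [h1, div_le_div_iff₀ (by positivity) (by positivity), one_mul]
  have h4 : ((strs n).filter P).card * 2 ^ d ≤ 2 ^ n := by
    rcases le_total n d with h | h
    · rw [Nat.sub_eq_zero_of_le h] at h2 h3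
      have : ((strs n).filter P).card = 0 := by omega
      simp [this]
    · calc _ ≤ 2 ^ (n - d) * 2 ^ d := Nat.mul_le_mul_right _ (h2.trans (h3.trans (Nat.sub_le _ _)))
        _ = 2 ^ n := by rw [← pow_add, Nat.sub_add_cancel h]
  exact_mod_cast h4

theorem exists_test {U : List Bool →. List Bool} (hU : Partrec U) (X Y : ℕ → Bool)
    (h : ∀ d : ℕ, ∀ᶠ n in atTop, (∃ q, pre X n ∈ U q ∧ q.length + d < n) ∨
      (∃ q, pre Y n ∈ U q ∧ q.length + d < n)) :
    ∃ R : ℕ × List Bool × ℕ × ℕ → Bool, Computable R ∧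
      (∀ k : ℕ, ∀ S : Finset (List Bool),
        (∀ σ ∈ S, ∃ a : ℕ, ∀ b : ℕ, R (k, σ, a, b) = true) →
        ∑ σ ∈ S, ((1 : ℝ) / 2) ^ σ.length ≤ ((1 : ℝ) / 2) ^ k) ∧
      ((∀ k : ℕ, ∃ n a : ℕ, ∀ b : ℕ, R (k, pre X n, a, b) = true) ∨
        (∀ k : ℕ, ∃ n a : ℕ, ∀ b : ℕ, R (k, pre Y n, a, b) = true)) := by
  obtain ⟨c, hc⟩ := Code.exists_code.1 hU
  have hs : Small (uc c) := fun d n => count_small U _ d n (fun σ hσ => (un_uc hc d σ).1 hσ)
  refine ⟨testR (uc c), (pr_testR (pr_uc c)).to_comp, test_weight (mono_uc c) hs,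
    test_cover (mono_uc c) hs X Y (fun d => ?_)⟩
  filter_upwards [h d] with n hn
  simpa only [un_uc hc, pre_length] using hn

end Pool.Agent.P.MP_14681b_lc
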