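import Pool.Agent.P.MP_14681b_lc.Step

set_option autoImplicit false

namespace Pool.Agent.P.MP_14681b_lc

open Classical Filter

variable {u : ℕ × List Bool × ℕ → Bool}

noncomputable def st (u : ℕ × List Bool × ℕ → Bool) (d : ℕ) : ℕ → ℕ
  | 0 => 0
  | j + 1 => sInf {s' | ∀ t, Good u d t (st u d j) s'}

def Small (u : ℕ × List Bool × ℕ → Bool) : Prop := ∀ d n, Ex n (ind (Un u d)) ≤ 1 / 2 ^ d

theorem st_good_of (hm : Mono u) {d j : ℕ} (h : InvAll u d (st u d j)) :
    ∀ t, Good u d t (st u d j) (st u d (j + 1)) :=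
  Nat.sInf_mem (s := {s' | ∀ t, Good u d t (st u d j) s'}) (exists_good hm h)

theorem st_inv (hm : Mono u) (hc : Small u) (d j : ℕ) : InvAll u d (st u d j) := by
  induction j with
  | zero => exact invAll_zero (hc d)
  | succ j ih => exact invAll_of_good (st_good_of hm ih)

theorem st_good (hm : Mono u) (hc : Small u) (d j t : ℕ) :
    Good u d t (st u d j) (st u d (j + 1)) := st_good_of hm (st_inv hm hc d j) t

theorem ap_ev (hm : Mono u) (hc : Small u) (d j : ℕ) :
    ∀ᶠ t in atTop, ap u d t j = st u d j := by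
  induction j with
  | zero => exact Eventually.of_forall (fun _ => rfl)
  | succ j ih =>
    have h1 : ∀ᶠ t in atTop, ∀ k ∈ Finset.range (st u d (j + 1)), ¬ Good u d t (st u d j) k := by
      refine (eventually_all_finset _).2 (fun k hk => ?_)
      have hk' : k ∉ {s' | ∀ t, Good u d t (st u d j) s'} :=
        Nat.notMem_of_lt_sInf (Finset.mem_range.1 hk)
      simp only [Set.mem_ofPred_eq, not_forall] at hk'
      obtain ⟨t0, ht0⟩ := hk'
      filter_upwards [eventually_ge_atTop t0] with t ht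
      exact fun h => ht0 (Good_anti hm ht h)
    filter_upwards [ih, h1, eventually_ge_atTop (st u d (j + 1))] with t ht1 ht2 ht3
    have hlt : st u d (j + 1) < (List.range (t + 1)).length := by simp; omega
    rw [ap, ht1, List.findIdx_eq hlt]
    refine ⟨by simpa using st_good hm hc d j t, fun k hk => ?_⟩
    simpa using ht2 k (Finset.mem_range.2 hk)

theorem le_lev_st (hm : Mono u) (hc : Small u) (d j : ℕ) : j ≤ lev (st u d j) := by
  induction j with
  | zero => exact Nat.zero_le _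
  | succ j ih => exact Nat.lt_of_le_of_lt ih (st_good hm hc d j 0).1

theorem high_take (s : ℕ) (σ : List Bool) : High s (σ.take (lev s)) ↔ High s σ := by
  unfold High
  rw [List.take_take, min_self]

theorem high_meas {d s : ℕ} (h : InvAll u d s) : Ex (lev s) (ind (High s)) ≤ 24 / 2 ^ d := by
  have h1 := (InvN_iff u d s _ _).1 (h (lev s) (lev s) le_rfl le_rfl)
  have h2 : 0 ≤ Ex (lev s) (fun σ => ind (fun τ => u (d, τ, lev s) = true) σ *
      (1 - alpha s (σ.take (lev s)))) :=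
    Ex_nonneg (fun σ _ => mul_nonneg (ind_nonneg _ _) (by linarith [(alpha_bd s (σ.take (lev s))).2]))
  have h3 : Ex (lev s) (ind (High s)) ≤ Ex (lev s) (fun σ => 3 * ((wt s σ : ℝ) / 2 ^ lev s)) := by
    refine Ex_mono (fun σ hσ => ?_)
    unfold ind
    split_ifs with hH
    · rw [high_iff] at hH
      nth_rewrite 1 [← hσ] at hH
      rw [List.take_length] at hH
      linarith
    · positivity
  rw [Ex_mul] at h3
  have h4 : (2 - 1 / 2 ^ lev s : ℝ) / 2 ^ d ≤ 2 / 2 ^ d :=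
    div_le_div_of_nonneg_right (by have : (0 : ℝ) < 1 / 2 ^ lev s := by positivity
                                   linarith) (by positivity)
  have h5 : (24 : ℝ) / 2 ^ d = 12 * (2 / 2 ^ d) := by ring
  linarith

theorem new_meas {d t s s' : ℕ} (h : Good u d t s s') :
    Ex (lev s') (ind (New s s')) = Ex (lev s') (ind (High s')) - Ex (lev s) (ind (High s)) := by
  rw [← Ex_take h.1.le (ind (High s)), ← Ex_sub]
  refine Ex_congr (fun σ hσ => ?_)
  have h1 := h.2.1 σ ((mem_allStr _ _).2 hσ)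
  unfold ind New
  rw [high_take]
  by_cases a : High s σ <;> by_cases b : High s' σ <;> simp_all

theorem sum_new (hm : Mono u) (hc : Small u) (d N : ℕ) :
    ∑ j ∈ Finset.range N, Ex (lev (st u d (j + 1))) (ind (New (st u d j) (st u d (j + 1))))
      ≤ 24 / 2 ^ d := by
  rw [Finset.sum_congr rfl (fun j _ => new_meas (st_good hm hc d j 0)),
    Finset.sum_range_sub (fun j => Ex (lev (st u d j)) (ind (High (st u d j))))]
  have h1 := high_meas (st_inv hm hc d N)
  have h2 : 0 ≤ Ex (lev (st u d 0)) (ind (High (st u d 0))) := Ex_nonneg (fun σ _ => ind_nonneg _ _)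
  linarith

theorem sum_ind_new (S : Finset (List Bool)) (s s' : ℕ) :
    ∑ σ ∈ S, ind (New s s') σ * ((1 : ℝ) / 2) ^ σ.length ≤ Ex (lev s') (ind (New s s')) := by
  unfold Ex
  rw [Finset.sum_div]
  have h0 : ∀ σ, σ ∉ strs (lev s') → ind (New s s') σ = 0 := by
    intro σ hσ
    unfold ind
    rw [if_neg (fun h => hσ (mem_strs.2 h.1))]
  calc ∑ σ ∈ S, ind (New s s') σ * ((1 : ℝ) / 2) ^ σ.length
      = ∑ σ ∈ S ∩ strs (lev s'), ind (New s s') σ * ((1 : ℝ) / 2) ^ σ.length := by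
        refine (Finset.sum_subset Finset.inter_subset_left (fun σ h1 h2 => ?_)).symm
        rw [h0 σ (fun h => h2 (Finset.mem_inter.2 ⟨h1, h⟩)), zero_mul]
    _ ≤ ∑ σ ∈ strs (lev s'), ind (New s s') σ * ((1 : ℝ) / 2) ^ σ.length :=
        Finset.sum_le_sum_of_subset_of_nonneg Finset.inter_subset_right
          (fun σ _ _ => mul_nonneg (ind_nonneg _ _) (by positivity))
    _ = _ := Finset.sum_congr rfl (fun σ hσ => by rw [mem_strs.1 hσ, one_div_pow]; ring)

theorem new_of_test (hm : Mono u) (hc : Small u) {k : ℕ} {σ : List Bool}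
    (h : ∃ a : ℕ, ∀ b : ℕ, testR u (k, σ, a, b) = true) :
    ∃ e j, New (st u (k + 6 + e) j) (st u (k + 6 + e) (j + 1)) σ := by
  obtain ⟨a, ha⟩ := h
  refine ⟨a.unpair.1, a.unpair.2.unpair.1, ?_⟩
  obtain ⟨T, hT⟩ := eventually_atTop.1
    ((ap_ev hm hc (k + 6 + a.unpair.1) a.unpair.2.unpair.1).and
      (ap_ev hm hc (k + 6 + a.unpair.1) (a.unpair.2.unpair.1 + 1)))
  have h1 := ha T
  obtain ⟨e1, e2⟩ := hT (a.unpair.2.unpair.2 + T) (by omega)
  simp only [testR, decide_eq_true_eq] at h1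
  rwa [e1, e2] at h1

theorem test_of_new (hm : Mono u) (hc : Small u) {k e j : ℕ} {σ : List Bool}
    (h : New (st u (k + 6 + e) j) (st u (k + 6 + e) (j + 1)) σ) :
    ∃ a : ℕ, ∀ b : ℕ, testR u (k, σ, a, b) = true := by
  obtain ⟨T, hT⟩ := eventually_atTop.1
    ((ap_ev hm hc (k + 6 + e) j).and (ap_ev hm hc (k + 6 + e) (j + 1)))
  refine ⟨Nat.pair e (Nat.pair j T), fun b => ?_⟩
  obtain ⟨e1, e2⟩ := hT (T + b) (by omega)
  simp only [testR, decide_eq_true_eq, Nat.unpair_pair]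
  rwa [e1, e2]

theorem geom_bound (k N : ℕ) :
    ∑ e ∈ Finset.range N, (24 : ℝ) / 2 ^ (k + 6 + e) ≤ ((1 : ℝ) / 2) ^ k := by
  have h : ∀ e, (24 : ℝ) / 2 ^ (k + 6 + e) = (3 / 8 * (1 / 2) ^ k) * (1 / 2) ^ e := by
    intro e
    rw [pow_add, pow_add, one_div_pow, one_div_pow]
    field_simp
    norm_num
  simp only [h]
  rw [← Finset.mul_sum]
  have h1 := sum_geometric_two_le N
  have h2 : (0 : ℝ) < (1 / 2) ^ k := by positivity
  nlinarith

theorem test_weight (hm : Mono u) (hc : Small u) (k : ℕ) (S : Finset (List Bool))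
    (h : ∀ σ ∈ S, ∃ a : ℕ, ∀ b : ℕ, testR u (k, σ, a, b) = true) :
    ∑ σ ∈ S, ((1 : ℝ) / 2) ^ σ.length ≤ ((1 : ℝ) / 2) ^ k := by
  have hev : ∀ᶠ N in atTop, ∀ σ ∈ S, ∃ e ∈ Finset.range N, ∃ j ∈ Finset.range N,
      New (st u (k + 6 + e) j) (st u (k + 6 + e) (j + 1)) σ := by
    refine (eventually_all_finset _).2 (fun σ hσ => ?_)
    obtain ⟨e, j, hej⟩ := new_of_test hm hc (h σ hσ)
    filter_upwards [eventually_gt_atTop e, eventually_gt_atTop j] with N h1 h2
    exact ⟨e, Finset.mem_range.2 h1, j, Finset.mem_range.2 h2, hej⟩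
  obtain ⟨N, hN⟩ := hev.exists
  set F : ℕ → ℕ → List Bool → ℝ := fun e j σ =>
    ind (New (st u (k + 6 + e) j) (st u (k + 6 + e) (j + 1))) σ * ((1 : ℝ) / 2) ^ σ.length with hF
  have hF0 : ∀ e j σ, 0 ≤ F e j σ := fun e j σ => mul_nonneg (ind_nonneg _ _) (by positivity)
  calc ∑ σ ∈ S, ((1 : ℝ) / 2) ^ σ.length
      ≤ ∑ σ ∈ S, ∑ e ∈ Finset.range N, ∑ j ∈ Finset.range N, F e j σ := by
        refine Finset.sum_le_sum (fun σ hσ => ?_)
        obtain ⟨e, he, j, hj, hej⟩ := hN σ hσ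
        have e1 : F e j σ = ((1 : ℝ) / 2) ^ σ.length := by
          simp only [hF, ind, hej, if_true, one_mul]
        rw [← e1]
        refine le_trans (Finset.single_le_sum (f := fun j => F e j σ)
          (fun j _ => hF0 e j σ) hj) ?_
        exact Finset.single_le_sum (f := fun e => ∑ j ∈ Finset.range N, F e j σ)
          (fun e _ => Finset.sum_nonneg (fun j _ => hF0 e j σ)) he
    _ = ∑ e ∈ Finset.range N, ∑ j ∈ Finset.range N, ∑ σ ∈ S, F e j σ := by
        rw [Finset.sum_comm]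
        exact Finset.sum_congr rfl (fun e _ => Finset.sum_comm)
    _ ≤ ∑ e ∈ Finset.range N, (24 : ℝ) / 2 ^ (k + 6 + e) := by
        refine Finset.sum_le_sum (fun e _ => le_trans ?_ (sum_new hm hc (k + 6 + e) N))
        exact Finset.sum_le_sum (fun j _ => sum_ind_new S _ _)
    _ ≤ _ := geom_bound k N

def pre (Z : ℕ → Bool) (n : ℕ) : List Bool := List.ofFn (fun i : Fin n => Z i)

theorem pre_length (Z : ℕ → Bool) (n : ℕ) : (pre Z n).length = n := by simp [pre]

theorem pre_take (Z : ℕ → Bool) {m n : ℕ} (h : m ≤ n) : (pre Z n).take m = pre Z m := by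
  apply List.ext_getElem
  · simp [pre, h]
  · intro i h1 h2
    simp [pre]

def Hit (u : ℕ × List Bool × ℕ → Bool) (Z : ℕ → Bool) (d : ℕ) : Prop :=
  ∃ j n, New (st u d j) (st u d (j + 1)) (pre Z n)

theorem hit_of_high (hm : Mono u) (hc : Small u) (Z : ℕ → Bool) (d j : ℕ)
    (h : High (st u d j) (pre Z (lev (st u d j)))) : Hit u Z d := by
  induction j with
  | zero =>
    exfalso
    unfold High at h
    simp [st, wt_zero] at h
  | succ j ih =>
    by_cases h' : High (st u d j) (pre Z (lev (st u d j)))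
    · exact ih h'
    · refine ⟨j, _, pre_length _ _, h, fun hh => h' ?_⟩
      rw [← high_take, pre_take Z (st_good hm hc d j 0).1.le] at hh
      exact hh

theorem hit_or (hm : Mono u) (hc : Small u) (X Y : ℕ → Bool) (d : ℕ)
    (h : ∀ᶠ n in atTop, Un u d (pre X n) ∨ Un u d (pre Y n)) : Hit u X d ∨ Hit u Y d := by
  obtain ⟨N, hN⟩ := eventually_atTop.1 h
  by_contra hcon
  push Not at hcon
  have hx := mt (hit_of_high hm hc X d (N + 1)) hcon.1
  have hy := mt (hit_of_high hm hc Y d (N + 1)) hcon.2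
  set l := lev (st u d (N + 1)) with hl
  have hev : ∀ᶠ t in atTop, ∀ n ∈ Finset.range (l + 1),
      (u (d, pre X n, t) = true ↔ Un u d (pre X n)) ∧
        (u (d, pre Y n, t) = true ↔ Un u d (pre Y n)) :=
    (eventually_all_finset _).2 (fun n _ => (ev_u hm d _).and (ev_u hm d _))
  obtain ⟨t, ht⟩ := hev.exists
  obtain ⟨n, hn1, hn2, hn3, hn4⟩ := (st_good hm hc d N t).2.2.2 (pre X l)
    ((mem_allStr _ _).2 (pre_length _ _)) (pre Y l) ((mem_allStr _ _).2 (pre_length _ _)) hx hy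
  have hnl : n ≤ l := Nat.lt_succ_iff.1 (List.mem_range.1 hn1)
  rw [pre_take _ hnl] at hn3 hn4
  obtain ⟨e1, e2⟩ := ht n (Finset.mem_range.2 (Nat.lt_succ_iff.2 hnl))
  rcases hN n ((le_lev_st hm hc d N).trans hn2) with h1 | h1
  · simp [e1.2 h1] at hn3
  · simp [e2.2 h1] at hn4

theorem test_cover (hm : Mono u) (hc : Small u) (X Y : ℕ → Bool)
    (h : ∀ d, ∀ᶠ n in atTop, Un u d (pre X n) ∨ Un u d (pre Y n)) :
    (∀ k : ℕ, ∃ n a : ℕ, ∀ b : ℕ, testR u (k, pre X n, a, b) = true) ∨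
      (∀ k : ℕ, ∃ n a : ℕ, ∀ b : ℕ, testR u (k, pre Y n, a, b) = true) := by
  have key : ∀ (Z : ℕ → Bool) (k e : ℕ), Hit u Z (k + 6 + e) →
      ∃ n a : ℕ, ∀ b : ℕ, testR u (k, pre Z n, a, b) = true := by
    rintro Z k e ⟨j, n, hj⟩
    exact ⟨n, test_of_new hm hc hj⟩
  by_contra hcon
  rw [not_or, not_forall, not_forall] at hcon
  obtain ⟨⟨k1, h1⟩, ⟨k2, h2⟩⟩ := hcon
  rcases hit_or hm hc X Y (k1 + 6 + k2) (h _) with h3 | h3
  · exact h1 (key X k1 k2 h3)
  · refine h2 (key Y k2 k1 ?_)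
    rwa [show k2 + 6 + k1 = k1 + 6 + k2 by omega]

end Pool.Agent.P.MP_14681b_lc
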