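import Pool.Agent.P.MP_14681b_lc.Exist
import Pool.Agent.P.MP_14681b_lc.Comp

set_option autoImplicit false

namespace Pool.Agent.P.MP_14681b_lc

open Classical Filter

variable {u : ℕ × List Bool × ℕ → Bool}

def Mono (u : ℕ × List Bool × ℕ → Bool) : Prop :=
  ∀ d σ t t', t ≤ t' → u (d, σ, t) = true → u (d, σ, t') = true

def Un (u : ℕ × List Bool × ℕ → Bool) (d : ℕ) (σ : List Bool) : Prop := ∃ t, u (d, σ, t) = true

def InvAll (u : ℕ × List Bool × ℕ → Bool) (d s : ℕ) : Prop :=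
  ∀ n t, lev s ≤ n → n ≤ t → InvN u d s n t

noncomputable def alpha (s : ℕ) (σ : List Bool) : ℝ := min 1 ((wt s σ : ℝ) / 2 ^ lev s)

theorem alpha_bd (s : ℕ) (σ : List Bool) : 0 ≤ alpha s σ ∧ alpha s σ ≤ 1 :=
  ⟨le_min zero_le_one (by positivity), min_le_left _ _⟩

theorem ev_u (hm : Mono u) (d : ℕ) (σ : List Bool) :
    ∀ᶠ t in atTop, (u (d, σ, t) = true ↔ Un u d σ) := by
  by_cases h : Un u d σ
  · obtain ⟨t0, ht0⟩ := h
    filter_upwards [eventually_ge_atTop t0] with t ht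
    exact ⟨fun h => ⟨t, h⟩, fun _ => hm d σ t0 t ht ht0⟩
  · exact Eventually.of_forall (fun t => ⟨fun h' => ⟨t, h'⟩, fun h' => absurd h' h⟩)

theorem cast_sub_wt (s : ℕ) (σ : List Bool) :
    ((2 ^ lev s - wt s σ : ℕ) : ℝ) = 2 ^ lev s * (1 - alpha s σ) := by
  unfold alpha
  have hp : (0 : ℝ) < 2 ^ lev s := by positivity
  rcases le_total (wt s σ) (2 ^ lev s) with h | h
  · rw [Nat.cast_sub h, min_eq_right]
    · push_cast; field_simp
    · rw [div_le_one hp]; exact_mod_cast h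
  · rw [Nat.sub_eq_zero_of_le h, min_eq_left]
    · simp
    · rw [le_div_iff₀ hp, one_mul]; exact_mod_cast h

theorem sA_real (u : ℕ × List Bool × ℕ → Bool) (d s n t : ℕ) :
    (sA u d s n t : ℝ) = 2 ^ n * 2 ^ lev s *
      Ex n (fun σ => ind (fun τ => u (d, τ, t) = true) σ * (1 - alpha s (σ.take (lev s)))) := by
  unfold sA Ex
  rw [sum_map_allStr, Nat.cast_sum]
  have : ∀ σ ∈ strs n, (((bif u (d, σ, t) then 2 ^ lev s - wt s (σ.take (lev s)) else 0 : ℕ)) : ℝ)
      = 2 ^ lev s * (ind (fun τ => u (d, τ, t) = true) σ * (1 - alpha s (σ.take (lev s)))) := by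
    intro σ _
    unfold ind
    cases h : u (d, σ, t)
    · simp [h]
    · simp only [h, cond_true, if_true, one_mul]
      exact cast_sub_wt s _
  rw [Finset.sum_congr rfl this, ← Finset.mul_sum]
  field_simp

theorem sB_real (s : ℕ) :
    (sB s : ℝ) = 2 ^ lev s * 2 ^ lev s * Ex (lev s) (fun σ => (wt s σ : ℝ) / 2 ^ lev s) := by
  unfold sB Ex
  rw [sum_map_allStr, Nat.cast_sum, ← Finset.sum_div]
  field_simp

theorem InvN_iff (u : ℕ × List Bool × ℕ → Bool) (d s n t : ℕ) : InvN u d s n t ↔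
    Ex n (fun σ => ind (fun τ => u (d, τ, t) = true) σ * (1 - alpha s (σ.take (lev s)))) +
      Ex (lev s) (fun σ => (wt s σ : ℝ) / 2 ^ lev s) / 4 ≤ (2 - 1 / 2 ^ lev s) / 2 ^ d := by
  unfold InvN
  rw [← Nat.cast_le (α := ℝ)]
  push_cast
  rw [sA_real, sB_real]
  set A := Ex n (fun σ => ind (fun τ => u (d, τ, t) = true) σ * (1 - alpha s (σ.take (lev s))))
  set B := Ex (lev s) (fun σ => (wt s σ : ℝ) / 2 ^ lev s)
  have h1 : (0 : ℝ) < 2 ^ lev s := by positivity
  have h2 : (0 : ℝ) < 2 ^ d := by positivity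
  have h3 : (0 : ℝ) < 2 ^ n := by positivity
  generalize (2 : ℝ) ^ lev s = L at *
  generalize (2 : ℝ) ^ d = D at *
  generalize (2 : ℝ) ^ n = N at *
  have e : (2 - 1 / L) / D = (8 * N * L * L - 4 * N * L) / (4 * N * L * L * D) := by
    field_simp; ring
  rw [e, le_div_iff₀ (by positivity)]
  constructor <;> intro h <;> nlinarith

theorem inv_real (hm : Mono u) {d s : ℕ} (h : InvAll u d s) (n : ℕ) (hn : lev s ≤ n) :
    Ex n (fun σ => ind (Un u d) σ * (1 - alpha s (σ.take (lev s)))) + Ex (lev s) (alpha s) / 4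
      ≤ (2 - 1 / 2 ^ lev s) / 2 ^ d := by
  have hev : ∀ᶠ t in atTop, ∀ σ ∈ strs n, (u (d, σ, t) = true ↔ Un u d σ) :=
    (eventually_all_finset _).2 (fun σ _ => ev_u hm d σ)
  obtain ⟨t, ht1, ht2⟩ := (hev.and (eventually_ge_atTop n)).exists
  have h1 := (InvN_iff u d s n t).1 (h n t hn ht2)
  have e1 : Ex n (fun σ => ind (Un u d) σ * (1 - alpha s (σ.take (lev s)))) =
      Ex n (fun σ => ind (fun τ => u (d, τ, t) = true) σ * (1 - alpha s (σ.take (lev s)))) := by
    refine Ex_congr (fun σ hσ => ?_)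
    unfold ind
    simp only [ht1 σ (mem_strs.2 hσ)]
  have e2 : Ex (lev s) (alpha s) ≤ Ex (lev s) (fun σ => (wt s σ : ℝ) / 2 ^ lev s) :=
    Ex_mono (fun σ _ => min_le_right _ _)
  linarith

theorem exists_state (m : ℕ) (a : List Bool → ℕ) :
    ∃ s, lev s = m ∧ ∀ σ : List Bool, σ.length = m → wt s σ = a σ := by
  set B := (strs m).sup (fun σ => Encodable.encode σ) + 1 with hB
  set L : List ℕ := (List.range B).map
    (fun i => a ((Encodable.decode (α := List Bool) i).getD [])) with hL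
  refine ⟨Nat.pair m (Encodable.encode L), by simp [lev], fun σ hσ => ?_⟩
  have hlt : Encodable.encode σ < B :=
    Nat.lt_succ_of_le (Finset.le_sup (f := fun σ => Encodable.encode σ) (mem_strs.2 hσ))
  unfold wt
  rw [Nat.unpair_pair, Denumerable.ofNat_encode, hL, List.getD_eq_getElem _ _ (by simpa using hlt)]
  simp

theorem high_iff (s : ℕ) (σ : List Bool) :
    High s σ ↔ 1 / 3 ≤ (wt s (σ.take (lev s)) : ℝ) / 2 ^ lev s := by
  unfold High
  rw [← Nat.cast_le (α := ℝ), le_div_iff₀ (by positivity)]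
  push_cast
  constructor <;> intro h <;> linarith

theorem ind_mono {P Q : List Bool → Prop} {σ : List Bool} (h : P σ → Q σ) :
    ind P σ ≤ ind Q σ := by
  unfold ind
  by_cases hp : P σ
  · simp [hp, h hp]
  · simp only [hp, if_false]; split_ifs <;> norm_num

theorem exists_good (hm : Mono u) {d s : ℕ} (h : InvAll u d s) :
    ∃ s', ∀ t, Good u d t s s' := by
  obtain ⟨m, β, hlm, hβ, hinv, hcov⟩ := exists_step (Un u d) (lev s) (alpha s) (alpha_bd s)
    (δ := 1 / 2 ^ lev s / 2 ^ d / 4) (by positivity) (inv_real hm h)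
  set M := m + lev s + d + 1 with hM
  have hmM : m ≤ M := by omega
  obtain ⟨s', hs1, hs2⟩ := exists_state M (fun σ => ⌈β (σ.take m) * 2 ^ M⌉₊)
  have hp : (0 : ℝ) < 2 ^ M := by positivity
  have hβ0 : ∀ σ, 0 ≤ β σ := fun σ => (alpha_bd s _).1.trans (hβ σ).1
  have hlow : ∀ σ : List Bool, σ.length = M → β (σ.take m) ≤ (wt s' σ : ℝ) / 2 ^ M := by
    intro σ hσ
    rw [hs2 σ hσ, le_div_iff₀ hp]
    exact Nat.le_ceil _
  have hup : ∀ σ : List Bool, σ.length = M →
      (wt s' σ : ℝ) / 2 ^ M ≤ β (σ.take m) + 1 / 2 ^ M := by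
    intro σ hσ
    rw [hs2 σ hσ, div_le_iff₀ hp, add_mul, one_div_mul_cancel hp.ne']
    exact (Nat.ceil_lt_add_one (mul_nonneg (hβ0 _) hp.le)).le
  refine ⟨s', fun t => ⟨by omega, fun σ hσ hH => ?_, fun n _ hn => ?_, fun x hx y hy h1 h2 => ?_⟩⟩
  · rw [mem_allStr, hs1] at hσ
    rw [high_iff] at hH ⊢
    rw [hs1, ← hσ, List.take_length, hσ]
    refine le_trans ?_ (hlow σ hσ)
    refine le_trans ?_ (hβ (σ.take m)).1
    rw [List.take_take, min_eq_left hlm]
    exact le_min (by norm_num) hH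
  · rw [hs1] at hn
    rw [InvN_iff, hs1]
    have h1 := hinv n (hmM.trans hn)
    have e1 : Ex n (fun σ => ind (fun τ => u (d, τ, t) = true) σ * (1 - alpha s' (σ.take M))) ≤
        Ex n (fun σ => ind (Un u d) σ * (1 - β (σ.take m))) := by
      refine Ex_mono (fun σ hσ => ?_)
      have hl : (σ.take M).length = M := by simp [hσ, hn]
      have h2 := hlow _ hl
      rw [List.take_take, min_eq_left hmM] at h2
      have h3 : β (σ.take m) ≤ alpha s' (σ.take M) := by
        unfold alpha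
        rw [hs1]
        exact le_min (hβ _).2 h2
      have h4 : ind (fun τ => u (d, τ, t) = true) σ ≤ ind (Un u d) σ :=
        ind_mono (fun h => ⟨t, h⟩)
      have h5 := (alpha_bd s' (σ.take M)).2
      exact mul_le_mul h4 (by linarith) (by linarith) (ind_nonneg _ _)
    have e2 : Ex M (fun σ => (wt s' σ : ℝ) / 2 ^ M) ≤ Ex m β + 1 / 2 ^ M := by
      refine (Ex_mono hup).trans ?_
      rw [Ex_add, Ex_const, Ex_take hmM]
    have e3 : (1 : ℝ) / 2 ^ M ≤ 1 / 2 ^ lev s / 2 ^ d / 2 := by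
      rw [div_div, div_div]
      apply one_div_le_one_div_of_le (by positivity)
      rw [hM, ← pow_succ, ← pow_add]
      exact pow_le_pow_right₀ (by norm_num) (by omega)
    have e4 : (1 : ℝ) / 2 ^ M / 2 ^ d ≤ 1 / 2 ^ M :=
      div_le_self (by positivity) (one_le_pow₀ (by norm_num))
    have e5 : (0 : ℝ) < 1 / 2 ^ lev s / 2 ^ d := by positivity
    rw [sub_div] at h1 ⊢
    linarith
  · rw [mem_allStr, hs1] at hx hy
    rw [high_iff, hs1, not_le] at h1 h2
    rw [← hx, List.take_length, hx] at h1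
    rw [← hy, List.take_length, hy] at h2
    obtain ⟨n, hn1, hn2, hn3, hn4⟩ := hcov (x.take m) (y.take m) (by simp [hx, hmM])
      (by simp [hy, hmM]) ((hlow x hx).trans_lt h1) ((hlow y hy).trans_lt h2)
    rw [List.take_take, min_eq_left hn2] at hn3 hn4
    refine ⟨n, by rw [List.mem_range, hs1]; omega, hn1, ?_, ?_⟩
    · exact Bool.eq_false_iff.2 (fun h => hn3 ⟨t, h⟩)
    · exact Bool.eq_false_iff.2 (fun h => hn4 ⟨t, h⟩)

theorem InvN_anti (hm : Mono u) {d s n t t' : ℕ} (htt : t ≤ t') (h : InvN u d s n t') :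
    InvN u d s n t := by
  rw [InvN_iff] at h ⊢
  refine le_trans (add_le_add_left (Ex_mono (fun σ _ => ?_)) _) h
  have h5 := (alpha_bd s (σ.take (lev s))).2
  exact mul_le_mul_of_nonneg_right (ind_mono (hm d σ t t' htt)) (by linarith)

theorem Good_anti (hm : Mono u) {d s s' t t' : ℕ} (htt : t ≤ t') (h : Good u d t' s s') :
    Good u d t s s' := by
  obtain ⟨h1, h2, h3, h4⟩ := h
  refine ⟨h1, h2, fun n hn hl => InvN_anti hm htt (h3 n ?_ hl), fun x hx y hy a b => ?_⟩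
  · rw [List.mem_range] at hn ⊢; omega
  · obtain ⟨n, hn1, hn2, hn3, hn4⟩ := h4 x hx y hy a b
    refine ⟨n, hn1, hn2, ?_, ?_⟩
    · exact Bool.eq_false_iff.2 (fun h => by simp [hm d _ t t' htt h] at hn3)
    · exact Bool.eq_false_iff.2 (fun h => by simp [hm d _ t t' htt h] at hn4)

theorem invAll_of_good {d s s' : ℕ} (h : ∀ t, Good u d t s s') : InvAll u d s' :=
  fun n t h1 h2 => (h t).2.2.1 n (List.mem_range.2 (by omega)) h1

theorem lev_zero : lev 0 = 0 := by simp [lev]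

theorem wt_zero (σ : List Bool) : wt 0 σ = 0 := by
  unfold wt
  have : Denumerable.ofNat (List ℕ) (Nat.unpair 0).2 = [] := by simp
  rw [this]; rfl

theorem invAll_zero {d : ℕ} (hc : ∀ n, Ex n (ind (Un u d)) ≤ 1 / 2 ^ d) : InvAll u d 0 := by
  intro n t _ _
  rw [InvN_iff, lev_zero]
  have e1 : Ex n (fun σ => ind (fun τ => u (d, τ, t) = true) σ * (1 - alpha 0 (σ.take 0))) ≤
      Ex n (ind (Un u d)) := by
    refine Ex_mono (fun σ _ => ?_)
    have : alpha 0 (σ.take 0) = 0 := by simp [alpha, wt_zero]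
    rw [this, sub_zero, mul_one]
    exact ind_mono (fun h => ⟨t, h⟩)
  have e2 : Ex 0 (fun σ => (wt 0 σ : ℝ) / 2 ^ 0) = 0 := by
    rw [← Ex_const 0 0]
    exact Ex_congr (fun σ _ => by simp [wt_zero])
  have := hc n
  rw [e2]
  norm_num at this ⊢
  norm_num at e1
  linarith

end Pool.Agent.P.MP_14681b_lc
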