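import Mathlib

set_option autoImplicit false

namespace Pool.Agent.P.MP_14681b_lc

/-- all binary strings of a given length -/
def allStr : ℕ → List (List Bool)
  | 0 => [[]]
  | n + 1 => (allStr n).flatMap (fun s => [s ++ [false], s ++ [true]])

theorem mem_allStr (n : ℕ) (σ : List Bool) : σ ∈ allStr n ↔ σ.length = n := by
  induction n generalizing σ with
  | zero => simp [allStr]
  | succ n ih =>
    simp only [allStr, List.mem_flatMap, List.mem_cons, List.not_mem_nil, or_false]
    constructor
    · rintro ⟨s, hs, rfl | rfl⟩ <;> simp [(ih s).1 hs]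
    · intro h
      rcases List.eq_nil_or_concat σ with rfl | ⟨s, b, rfl⟩
      · simp at h
      · refine ⟨s, (ih s).2 (by simpa using h), ?_⟩
        cases b <;> simp

theorem nodup_allStr (n : ℕ) : (allStr n).Nodup := by
  induction n with
  | zero => simp [allStr]
  | succ n ih =>
    simp only [allStr]
    rw [List.nodup_flatMap]
    refine ⟨fun s _ => by simp, ?_⟩
    refine List.Pairwise.imp ?_ ih
    intro a b hab
    simp only [Function.onFun, List.disjoint_cons_left, List.mem_cons, List.append_cancel_right_eq,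
      List.not_mem_nil, or_false, List.disjoint_nil_left, and_true, not_or]
    refine ⟨⟨hab, fun h => ?_⟩, fun h => ?_, hab⟩
    · have := List.append_inj_right' h rfl
      simp at this
    · have := List.append_inj_right' h rfl
      simp at this

/-- the finite set of strings of length n -/
def strs (n : ℕ) : Finset (List Bool) := (allStr n).toFinset

theorem mem_strs {n : ℕ} {σ : List Bool} : σ ∈ strs n ↔ σ.length = n := by
  simp [strs, mem_allStr]

theorem sum_map_allStr {M : Type*} [AddCommMonoid M] (n : ℕ) (g : List Bool → M) :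
    ((allStr n).map g).sum = ∑ σ ∈ strs n, g σ := by
  rw [strs, List.sum_toFinset _ (nodup_allStr n)]

theorem sum_flatMap_aux {M : Type*} [AddCommMonoid M] (L : List (List Bool)) (g : List Bool → M) :
    ((L.flatMap (fun s => [s ++ [false], s ++ [true]])).map g).sum
      = (L.map (fun s => g (s ++ [false]) + g (s ++ [true]))).sum := by
  induction L with
  | nil => simp
  | cons a L ih =>
    simp only [List.flatMap_cons, List.map_append, List.sum_append, ih, List.map_cons,
      List.sum_cons, List.map_nil, List.sum_nil, add_zero]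

theorem sum_strs_succ {M : Type*} [AddCommMonoid M] (n : ℕ) (g : List Bool → M) :
    ∑ σ ∈ strs (n + 1), g σ = ∑ σ ∈ strs n, (g (σ ++ [false]) + g (σ ++ [true])) := by
  rw [← sum_map_allStr, ← sum_map_allStr, allStr, sum_flatMap_aux]

theorem card_strs (n : ℕ) : (strs n).card = 2 ^ n := by
  induction n with
  | zero => simp [strs, allStr]
  | succ n ih =>
    rw [Finset.card_eq_sum_ones, sum_strs_succ]
    simp [ih, pow_succ]

/-- average of g over the strings of length n -/
noncomputable def Ex (n : ℕ) (g : List Bool → ℝ) : ℝ := (∑ σ ∈ strs n, g σ) / 2 ^ n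

theorem Ex_congr {n : ℕ} {g h : List Bool → ℝ} (H : ∀ σ, σ.length = n → g σ = h σ) :
    Ex n g = Ex n h := by
  unfold Ex
  rw [Finset.sum_congr rfl (fun σ hσ => H σ (mem_strs.1 hσ))]

theorem Ex_mono {n : ℕ} {g h : List Bool → ℝ} (H : ∀ σ, σ.length = n → g σ ≤ h σ) :
    Ex n g ≤ Ex n h := by
  unfold Ex
  exact div_le_div_of_nonneg_right (Finset.sum_le_sum (fun σ hσ => H σ (mem_strs.1 hσ)))
    (by positivity)

theorem Ex_add (n : ℕ) (g h : List Bool → ℝ) :
    Ex n (fun σ => g σ + h σ) = Ex n g + Ex n h := by
  unfold Ex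
  rw [Finset.sum_add_distrib, add_div]

theorem Ex_sub (n : ℕ) (g h : List Bool → ℝ) :
    Ex n (fun σ => g σ - h σ) = Ex n g - Ex n h := by
  unfold Ex
  rw [Finset.sum_sub_distrib, sub_div]

theorem Ex_mul (n : ℕ) (c : ℝ) (g : List Bool → ℝ) :
    Ex n (fun σ => c * g σ) = c * Ex n g := by
  unfold Ex
  rw [← Finset.mul_sum, mul_div_assoc]

theorem Ex_const (n : ℕ) (c : ℝ) : Ex n (fun _ => c) = c := by
  unfold Ex
  rw [Finset.sum_const, card_strs]
  simp

theorem Ex_nonneg {n : ℕ} {g : List Bool → ℝ} (H : ∀ σ, σ.length = n → 0 ≤ g σ) :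
    0 ≤ Ex n g := by
  have := Ex_mono (n := n) (g := fun _ => 0) (h := g) H
  rwa [Ex_const] at this

theorem Ex_take {l n : ℕ} (h : l ≤ n) (g : List Bool → ℝ) :
    Ex n (fun σ => g (σ.take l)) = Ex l g := by
  induction n, h using Nat.le_induction with
  | base => exact Ex_congr (fun σ hσ => by rw [← hσ, List.take_length])
  | succ n hn ih =>
    rw [← ih]
    unfold Ex
    rw [sum_strs_succ]
    have : ∀ σ ∈ strs n, g ((σ ++ [false]).take l) + g ((σ ++ [true]).take l)
        = 2 * g (σ.take l) := by
      intro σ hσ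
      have hl : l ≤ σ.length := by rw [mem_strs.1 hσ]; exact hn
      rw [List.take_append_of_le_length hl, List.take_append_of_le_length hl]
      ring
    rw [Finset.sum_congr rfl this, ← Finset.mul_sum, pow_succ]
    field_simp

end Pool.Agent.P.MP_14681b_lc
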